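import Pool.Agent.H96.KMF.K2.Num

set_option autoImplicit false

/-!
# The exact value of `g₂(n)` for every `n`

`KMultipleFree k A` says that no element of `A` is a multiple of `k` distinct other elements of
`A`; `gk k n` is the largest size of a `k`-multiple-free subset of `{1, ..., n}`. `Exc x` says that
`⌊log₂ x⌋` is odd, `4 x ≥ 5 · 2 ^ ⌊log₂ x⌋`, `3 x ≥ 5 · 3 ^ ⌊log₃ x⌋` and `x < 2 · 3 ^ ⌊log₃ x⌋`.
-/

open Pool.Agent.H96.KMF

theorem Pool.Agent.Results.MP_afae12_nt.ExactTwo.result :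
    (∀ n : ℕ, gk 2 n = ∑ m ∈ (Finset.Icc 1 n).filter (fun m => Nat.Coprime 6 m),
      (1 + Nat.log 2 (n / m) + Nat.log 3 (n / m) - Nat.log 4 (n / m) -
        (if Exc (n / m) then 1 else 0))) ∧
    ∃ c : ℝ, c = 13 / 18 - 1 / 3 * ∑' j : ℕ, (if Exc j then (1 : ℝ) else 0) / (j * (j + 1)) ∧
      0.7195 < c ∧ c < 0.7196 ∧
      ∀ n : ℕ, |(gk 2 n : ℝ) - c * n| ≤ 5 + 8 * Real.log (n + 1) := by
  refine ⟨fun n => gk2_eq n, c2, ?_, c2_bounds.1, c2_bounds.2, gk2_asym⟩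
  unfold c2
  congr 2
  apply tsum_congr
  intro j
  unfold ee
  split_ifs <;> simp
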