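import Pool.Agent.H96.LK4.Final

set_option autoImplicit false

/-!
# The limit density of `k`-multiple-free sets for large `k`, up to a factor `exp ((log k)^(9/10))`

`KMultipleFree k A` says that no element of `A` is a multiple of `k` distinct other elements of
`A`, and `gk k n` is the largest size of a `k`-multiple-free subset of `{1, ..., n}`.  With
`σ = log 2 / log y` and `ww σ p = (1 - p^(-σ))^(-1/σ)`, `LL y` is the sum over the primes `p ≤ y` of
`log (2 y / p)` and over the primes `p > y` of `log (1 + (ww σ p - 1) / p)`.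
-/

open Pool.Agent.H96.KMF Pool.Agent.H96.LK4 Filter Topology

/-- With `c k = lim g_k(n) / n`: for large `k`, `log (1 / (1 - c k))` is the maximum over `y ≥ 2` of
`log k * log y / log 2 - LL y`, up to `(log k)^(9/10)`; and as `k → ∞`,
`log (1 / (1 - c k)) * (log 2 / log k) = log log k + log log log k - log (1 + π / 2) -
log log 2 - 1 + o(1)`. -/
theorem Pool.Agent.Results.MP_afae12_nt.LargeKFormula.result :
    ∃ c : ℕ → ℝ, (∀ k : ℕ, Tendsto (fun n : ℕ => (gk k n : ℝ) / n) atTop (𝓝 (c k))) ∧
      (∀ᶠ k : ℕ in atTop, c k < 1 ∧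
        (∀ y : ℝ, 2 ≤ y → Real.log k * Real.log y / Real.log 2 - LL y ≤
          -Real.log (1 - c k) + Real.log k ^ (9 / 10 : ℝ)) ∧
        ∃ y : ℝ, 2 ≤ y ∧ -Real.log (1 - c k) ≤
          Real.log k * Real.log y / Real.log 2 - LL y + Real.log k ^ (9 / 10 : ℝ)) ∧
      Tendsto (fun k : ℕ => -Real.log (1 - c k) * (Real.log 2 / Real.log k) -
        (Real.log (Real.log k) + Real.log (Real.log (Real.log k)))) atTop
        (𝓝 (-(1 + Real.log (1 + Real.pi / 2) + Real.log (Real.log 2)))) :=
  large_k_formula
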