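import Pool.Agent.H36.LD.Final

set_option autoImplicit false

/-!
# The limit density of `k`-multiple-free sets exists and is computable

`KMultipleFree k A` says that no element of `A` is a multiple of `k` distinct other elements of
`A`; `gk k n` is the largest size of a `k`-multiple-free subset of `{1, ..., n}`; `opt k S` is the
largest size of a `k`-multiple-free subset of the finite set `S`; `scell M j` is the set of the
integers `s` with `j / M < s ≤ j` all of whose prime factors are `< M`; and
`SS k M J = ∏_{p < M} (1 - 1/p) * ∑_{j=1}^{J} opt k (scell M j) / (j (j + 1))`, a rational number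
found by a finite computation.
-/

open Pool.Agent.H96.KMF

theorem Pool.Agent.Results.MP_afae12_nt.LimitDensity.result (k : ℕ) (_hk : 1 ≤ k) :
    ∃ c : ℝ,
      (∀ n : ℕ, 1 ≤ n →
        |(gk k n : ℝ) - c * n| ≤ 80 * n * Real.exp (-Real.sqrt (Real.log n) / 4)) ∧
      ∀ M J : ℕ, 1 ≤ M → SS k M J ≤ c ∧
        c ≤ SS k M J + 1 / M + 2 ^ (M + 1) / Real.sqrt (J + 1) :=
  Pool.Agent.H36.LD.exists_limit_exp k
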