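import Pool.Agent.H36.KW.Final

set_option autoImplicit false

/-!
# The largest `k`-multiple-free sets: a structure theorem, and the densities for `k = 3, 4, 5`

`KMultipleFree k A` says that no element of `A` is a multiple of `k` distinct other elements of
`A`; `gk k n` is the largest size of a `k`-multiple-free subset of `{1, ..., n}`.

(1) For all `k` and `n` there is a largest `k`-multiple-free subset `A` of `{1, ..., n}` such that
every `m ≤ n` which is not in `A` has either no divisor in `A` or more than `k` divisors in `A`.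
(2) The limits `c k` of `gk k n / n` satisfy `0.8103 < c 3 < 0.8108`, `0.8725 < c 4 < 0.8756` and
`0.8959 < c 5 < 0.8992`.
-/

open Pool.Agent.H96.KMF Filter Topology

theorem Pool.Agent.Results.MP_afae12_nt.SmallK.result :
    (∀ k n : ℕ, ∃ A ⊆ Finset.Icc 1 n, KMultipleFree k A ∧ A.card = gk k n ∧
      ∀ m ∈ Finset.Icc 1 n, m ∉ A →
        (A.filter (fun b => b ∣ m)).card = 0 ∨ k < (A.filter (fun b => b ∣ m)).card) ∧
    ∃ c : ℕ → ℝ, (∀ k, Tendsto (fun n : ℕ => (gk k n : ℝ) / n) atTop (𝓝 (c k))) ∧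
      (0.8103 < c 3 ∧ c 3 < 0.8108) ∧ (0.8725 < c 4 ∧ c 4 < 0.8756) ∧
      (0.8959 < c 5 ∧ c 5 < 0.8992) ∧
      ∃ n₀ : ℕ, ∀ n : ℕ, n₀ ≤ n →
        (0.8103 * (n : ℝ) < gk 3 n ∧ (gk 3 n : ℝ) < 0.8108 * n) ∧
        (0.8725 * (n : ℝ) < gk 4 n ∧ (gk 4 n : ℝ) < 0.8756 * n) ∧
        (0.8959 * (n : ℝ) < gk 5 n ∧ (gk 5 n : ℝ) < 0.8992 * n) :=
  ⟨Pool.Agent.H36.KW.rigidity, Pool.Agent.H36.KW.small_k⟩
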